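import Pool.Agent.N549.HG.Stm2

/-!
# Hard spheres: the recursion is the volume of the configurations (HG/CONF, project HG of helper549)
-/

set_option autoImplicit false

namespace Pool.Agent.N364.HG

open MeasureTheory Set Finset
open Pool.Agent.N549.HG
open scoped ENNReal NNReal

section

variable {Ω : Type} [MeasurableSpace Ω]

/-- the weight of the pairs -/
noncomputable def Wk (F : Ω → Ω → ℝ≥0∞) : (k : ℕ) → (Fin k → Ω) → ℝ≥0∞
  | 0, _ => 1
  | k + 1, x => (∏ j : Fin k, F (x 0) (x j.succ)) * Wk F k (fun j => x j.succ)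

theorem Wk_meas {F : Ω → Ω → ℝ≥0∞} (hF : Measurable (Function.uncurry F)) (k : ℕ) :
    Measurable (Wk F k) := by
  induction k with
  | zero => exact measurable_const
  | succ k ih =>
    show Measurable fun x : Fin (k + 1) → Ω =>
      (∏ j : Fin k, F (x 0) (x j.succ)) * Wk F k (fun j => x j.succ)
    refine Measurable.mul ?_ (ih.comp (measurable_pi_lambda _ fun j => measurable_pi_apply _))
    refine Finset.measurable_prod _ fun j _ => ?_
    have h0 : Measurable fun x : Fin (k + 1) → Ω => (x 0, x j.succ) :=
      (measurable_pi_apply 0).prodMk (measurable_pi_apply j.succ)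
    exact hF.comp h0

theorem A_eq {μ : Measure Ω} [IsProbabilityMeasure μ] {F : Ω → Ω → ℝ≥0∞}
    (hF : Measurable (Function.uncurry F)) (k : ℕ) : ∀ φ : Ω → ℝ≥0∞, Measurable φ →
      A μ F k φ = ∫⁻ x : Fin k → Ω, (∏ i, φ (x i)) * Wk F k x ∂(Measure.pi fun _ => μ) := by
  induction k with
  | zero =>
    intro φ _
    simp [A, Wk]
  | succ k ih =>
    intro φ hφ
    have hFu : ∀ u, Measurable fun y => F u y := fun u => hF.comp (measurable_const.prodMk measurable_id)
    have hm : Measurable fun p : Ω × (Fin k → Ω) =>
        φ p.1 * ((∏ i, (φ (p.2 i) * F p.1 (p.2 i))) * Wk F k p.2) := by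
      refine (hφ.comp measurable_fst).mul (Measurable.mul ?_ ((Wk_meas hF k).comp measurable_snd))
      refine Finset.measurable_prod _ fun i _ => ?_
      have h1 : Measurable fun p : Ω × (Fin k → Ω) => p.2 i :=
        (measurable_pi_apply i).comp measurable_snd
      exact (hφ.comp h1).mul (hF.comp (measurable_fst.prodMk h1))
    have h1 : A μ F (k + 1) φ =
        ∫⁻ u, ∫⁻ y : Fin k → Ω, φ u * ((∏ i, (φ (y i) * F u (y i))) * Wk F k y)
          ∂(Measure.pi fun _ => μ) ∂μ := by
      show ∫⁻ u, φ u * A μ F k (fun y => φ y * F u y) ∂μ = _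
      refine lintegral_congr fun u => ?_
      rw [ih (fun y => φ y * F u y) (hφ.mul (hFu u)), lintegral_const_mul]
      refine Measurable.mul ?_ (Wk_meas hF k)
      refine Finset.measurable_prod _ fun i _ => ?_
      exact (hφ.comp (measurable_pi_apply i)).mul ((hFu u).comp (measurable_pi_apply i))
    rw [h1, ← lintegral_prod _ hm.aemeasurable]
    have h2 := (measurePreserving_piFinSuccAbove (fun _ : Fin (k + 1) => μ) 0).lintegral_comp hm
    rw [← h2]
    refine lintegral_congr fun x => ?_
    have e1 : ((MeasurableEquiv.piFinSuccAbove (fun _ : Fin (k + 1) => Ω) 0) x).1 = x 0 := rfl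
    have e2 : ((MeasurableEquiv.piFinSuccAbove (fun _ : Fin (k + 1) => Ω) 0) x).2 =
        fun j => x j.succ := rfl
    rw [e1, e2, Fin.prod_univ_succ, Finset.prod_mul_distrib]
    show φ (x 0) * (((∏ i : Fin k, φ (x i.succ)) * ∏ i : Fin k, F (x 0) (x i.succ)) *
      Wk F k fun j => x j.succ) = φ (x 0) * (∏ i : Fin k, φ (x i.succ)) *
        ((∏ j : Fin k, F (x 0) (x j.succ)) * Wk F k (fun j => x j.succ))
    ring

end

theorem far_meas (n : ℕ) (r : ℝ) : Measurable (Function.uncurry (far n r)) := by
  have h1 : Measurable fun p : Torus n × Torus n => sqd p.1 p.2 := by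
    have : Continuous fun p : Torus n × Torus n => sqd p.1 p.2 := by
      unfold sqd
      fun_prop
    exact this.measurable
  exact Measurable.ite (measurableSet_le measurable_const h1) measurable_const measurable_const

open scoped Classical in
theorem Wk_far (n : ℕ) (r : ℝ) (k : ℕ) (x : Fin k → Torus n) :
    Wk (far n r) k x = if ∀ i j, i < j → r ^ 2 ≤ sqd (x i) (x j) then 1 else 0 := by
  induction k with
  | zero =>
    rw [if_pos fun i => i.elim0]
    rfl
  | succ k ih =>
    show (∏ j : Fin k, far n r (x 0) (x j.succ)) * Wk (far n r) k (fun j => x j.succ) = _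
    rw [ih]
    by_cases h : ∀ i j, i < j → r ^ 2 ≤ sqd (x i) (x j)
    · rw [if_pos h, if_pos fun i j hij => h _ _ (Fin.succ_lt_succ_iff.2 hij), mul_one]
      refine Finset.prod_eq_one fun j _ => ?_
      unfold far
      rw [if_pos (h 0 j.succ (Fin.succ_pos j))]
    · rw [if_neg h]
      by_cases h2 : ∀ i j : Fin k, i < j → r ^ 2 ≤ sqd (x i.succ) (x j.succ)
      · rw [if_pos h2, mul_one]
        have h3 : ∃ j : Fin k, ¬ r ^ 2 ≤ sqd (x 0) (x j.succ) := by
          by_contra hcon
          push Not at hcon
          refine h fun i j hij => ?_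
          induction i using Fin.cases with
          | zero =>
            induction j using Fin.cases with
            | zero => exact absurd hij (lt_irrefl _)
            | succ j => exact hcon j
          | succ i =>
            induction j using Fin.cases with
            | zero => exact absurd hij (Fin.not_lt_zero _)
            | succ j => exact h2 i j (Fin.succ_lt_succ_iff.1 hij)
        obtain ⟨j, hj⟩ := h3
        refine Finset.prod_eq_zero (Finset.mem_univ j) ?_
        unfold far
        rw [if_neg hj]
      · rw [if_neg h2, mul_zero]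

theorem conf_eq : S_CONF := by
  classical
  intro n k r
  have hp : IsProbabilityMeasure (vol n) := by
    unfold vol
    infer_instance
  rw [A_eq (far_meas n r) k _ measurable_const]
  have h1 : ∀ x : Fin k → Torus n, (∏ _i : Fin k, (1 : ℝ≥0∞)) * Wk (far n r) k x =
      ({x | ∀ i j, i < j → r ^ 2 ≤ sqd (x i) (x j)} : Set (Fin k → Torus n)).indicator 1 x := by
    intro x
    rw [Finset.prod_const_one, one_mul, Wk_far]
    rw [Set.indicator_apply]
    rfl
  have hms : MeasurableSet ({x | ∀ i j, i < j → r ^ 2 ≤ sqd (x i) (x j)} :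
      Set (Fin k → Torus n)) := by
    have h2 : ({x | ∀ i j, i < j → r ^ 2 ≤ sqd (x i) (x j)} : Set (Fin k → Torus n)) =
        Wk (far n r) k ⁻¹' {1} := by
      ext x
      rw [Set.mem_preimage, Wk_far, Set.mem_singleton_iff]
      split_ifs with h
      · exact ⟨fun _ => rfl, fun _ => h⟩
      · exact ⟨fun h' => absurd h' h, fun h' => absurd h' zero_ne_one⟩
    rw [h2]
    exact Wk_meas (far_meas n r) k (measurableSet_singleton 1)
  rw [lintegral_congr h1, lintegral_indicator_one hms]
  unfold conf
  rw [measureReal_def, ENNReal.ofReal_toReal (measure_ne_top _ _)]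

end Pool.Agent.N364.HG
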